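import Pool.Agent.R538.Semi.Main

/-!
MP_59d646: every uncapacitated flow-based extension of the semiorder polytope has superexponential
size, namely at least `(log n) ^ (δ n) = 2 ^ Ω(n log log n)`. In particular there is no constant `c`
with extensions of size `O*(c ^ n)`.
-/

namespace Pool.Agent.Results.MP_59d646_lc.SemiorderLowerBound

open Finset Filter Pool.Agent.R538.Semi

/-- Question Q1: is there a constant `c` such that, for every `n ≥ 1`, the semiorder polytope has an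
uncapacitated flow-based extension of size `O*(c ^ n)`? -/
def Q1 : Prop :=
  ∃ (c : ℝ) (f : ℕ → ℕ), (∀ n, 1 ≤ n → HasFlowExt (PSO n) (f n)) ∧
    ∃ p : Polynomial ℝ, ∀ᶠ n in atTop, (f n : ℝ) ≤ p.eval (n : ℝ) * c ^ n

/-- choice of the parameter -/
def DD (M : ℕ) : ℕ := Nat.sqrt (Nat.log 2 M)

theorem DD_tendsto : Tendsto DD atTop atTop := by
  rw [tendsto_atTop]
  intro b
  filter_upwards [eventually_ge_atTop (2 ^ (b * b))] with M hM
  unfold DD
  rw [Nat.le_sqrt]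
  exact Nat.le_log_of_pow_le (by norm_num) hM

theorem ev_cond : ∀ᶠ D : ℕ in atTop, D ^ (5 * D) * 4 ^ (50 * D) * (1005 * D) ≤ 2 ^ (D * D) := by
  have h5 := tendsto_pow_const_div_const_pow_of_one_lt 5 (show (1 : ℝ) < 2 by norm_num)
  have h1 := tendsto_pow_const_div_const_pow_of_one_lt 1 (show (1 : ℝ) < 2 by norm_num)
  have e5 := h5.eventually (gt_mem_nhds (show (0 : ℝ) < 1 / (4 ^ 50 * 2) by positivity))
  have e1 := h1.eventually (gt_mem_nhds (show (0 : ℝ) < 1 / 1005 by norm_num))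
  filter_upwards [e5, e1] with D hD5 hD1
  have p2 : (0 : ℝ) < 2 ^ D := by positivity
  rw [div_lt_div_iff₀ p2 (by positivity)] at hD5 hD1
  have a1 : D ^ 5 * (4 ^ 50 * 2) ≤ 2 ^ D := by
    have : (D : ℝ) ^ 5 * (4 ^ 50 * 2) ≤ 2 ^ D := by linarith
    exact_mod_cast this
  have a2 : 1005 * D ≤ 2 ^ D := by
    have : 1005 * (D : ℝ) ≤ 2 ^ D := by linarith
    exact_mod_cast this
  calc D ^ (5 * D) * 4 ^ (50 * D) * (1005 * D)
      ≤ D ^ (5 * D) * 4 ^ (50 * D) * 2 ^ D := by gcongr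
    _ = (D ^ 5 * (4 ^ 50 * 2)) ^ D := by
        rw [mul_pow, mul_pow, ← pow_mul, ← pow_mul, mul_assoc]
    _ ≤ (2 ^ D) ^ D := Nat.pow_le_pow_left a1 _
    _ = 2 ^ (D * D) := by rw [← pow_mul]

/-- The general bound: for large `M` we have `D ^ s ≤ q` with `402 s ≥ M`. -/
theorem ev_main : ∀ᶠ M : ℕ in atTop, ∀ q, HasFlowExt (PSO M) q →
    ∃ s : ℕ, M ≤ 402 * s ∧ DD M ^ s ≤ q := by
  filter_upwards [DD_tendsto.eventually ev_cond, DD_tendsto.eventually_ge_atTop 1,
    eventually_ge_atTop 1] with M h1 h2 h3 q hq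
  have h4 : 2 ^ (DD M * DD M) ≤ M := by
    refine (Nat.pow_le_pow_right (by norm_num) (Nat.sqrt_le (Nat.log 2 M))).trans ?_
    exact Nat.pow_log_le_self 2 (by omega)
  have h5 : DD M ^ (5 * DD M) * 4 ^ (50 * DD M) ≤ M / (1005 * DD M) := by
    rw [Nat.le_div_iff_mul_le (by omega)]
    exact h1.trans h4
  have h6 : 1005 * DD M * (M / (1005 * DD M)) ≤ M := Nat.mul_div_le _ _
  have h7 := key h2 h5 h6 hq
  refine ⟨_, ?_, h7⟩
  have h8 : 1 ≤ M / (1005 * DD M) := le_trans (Nat.mul_pos (by positivity) (by positivity)) h5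
  have h9 : M < 1005 * DD M * (M / (1005 * DD M) + 1) := Nat.lt_mul_div_succ M (by omega)
  have h10 : DD M ≤ DD M * (M / (1005 * DD M)) := Nat.le_mul_of_pos_right _ h8
  generalize M / (1005 * DD M) = r at *
  generalize DD M = D at *
  nlinarith

theorem ev_pow (K : ℕ) : ∀ᶠ M : ℕ in atTop, ∀ q, HasFlowExt (PSO M) q → (K : ℝ) ^ M < q := by
  filter_upwards [ev_main, DD_tendsto.eventually_ge_atTop ((K + 1) ^ 402), eventually_ge_atTop 1]
    with M h1 h2 h3 q hq
  obtain ⟨s, hs1, hs2⟩ := h1 q hq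
  have h4 : K ^ M < q := by
    calc K ^ M < (K + 1) ^ M := Nat.pow_lt_pow_left (by omega) (by omega)
      _ ≤ (K + 1) ^ (402 * s) := Nat.pow_le_pow_right (by omega) hs1
      _ = ((K + 1) ^ 402) ^ s := by rw [pow_mul]
      _ ≤ DD M ^ s := Nat.pow_le_pow_left h2 _
      _ ≤ q := hs2
  exact_mod_cast h4

theorem poly_bound (c : ℝ) (p : Polynomial ℝ) :
    ∃ K : ℕ, ∀ᶠ n : ℕ in atTop, p.eval (n : ℝ) * c ^ n ≤ (K : ℝ) ^ n := by
  have h1 : (fun x : ℝ => p.eval x) =O[atTop] fun x => (Polynomial.X ^ p.natDegree : Polynomial ℝ).eval x := by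
    refine Polynomial.isBigO_of_degree_le _ _ ?_
    rw [Polynomial.degree_X_pow]
    exact Polynomial.degree_le_natDegree
  have h2 : (fun n : ℕ => p.eval (n : ℝ)) =O[atTop] fun n : ℕ => (n : ℝ) ^ p.natDegree := by
    have := h1.comp_tendsto (tendsto_natCast_atTop_atTop (R := ℝ))
    simpa [Function.comp_def] using this
  have h3 : (fun n : ℕ => p.eval (n : ℝ)) =o[atTop] fun n : ℕ => (2 : ℝ) ^ n :=
    h2.trans_isLittleO (isLittleO_pow_const_const_pow_of_one_lt _ (by norm_num))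
  have h4 := h3.bound (show (0 : ℝ) < 1 by norm_num)
  refine ⟨⌈2 * |c|⌉₊, ?_⟩
  filter_upwards [h4] with n hn
  rw [Real.norm_eq_abs, one_mul, Real.norm_of_nonneg (by positivity)] at hn
  calc p.eval (n : ℝ) * c ^ n ≤ |p.eval (n : ℝ) * c ^ n| := le_abs_self _
    _ = |p.eval (n : ℝ)| * |c| ^ n := by rw [abs_mul, abs_pow]
    _ ≤ 2 ^ n * |c| ^ n := by gcongr
    _ = (2 * |c|) ^ n := by rw [mul_pow]
    _ ≤ _ := pow_le_pow_left₀ (by positivity) (Nat.le_ceil _) _

theorem ev_log : ∀ᶠ n : ℕ in atTop, ∀ q, HasFlowExt (PSO n) q →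
    Real.log n ^ ((1 / 2000 : ℝ) * n) ≤ q := by
  filter_upwards [ev_main, DD_tendsto.eventually_ge_atTop 2, eventually_ge_atTop 3]
    with M h1 h2 h3 q hq
  obtain ⟨s, hs1, hs2⟩ := h1 q hq
  have hMpos : (0 : ℝ) < M := by
    have : 0 < M := by omega
    exact_mod_cast this
  have hlog : Real.log M ≤ (DD M : ℝ) ^ 4 := by
    have h4 : M < 2 ^ (Nat.log 2 M + 1) := Nat.lt_pow_succ_log_self (by norm_num) _
    have h5 : Nat.log 2 M + 1 ≤ (DD M + 1) * (DD M + 1) := by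
      have := Nat.lt_succ_sqrt (Nat.log 2 M)
      simpa [DD, Nat.succ_eq_add_one] using this
    have h6 : (DD M + 1) * (DD M + 1) ≤ DD M ^ 4 := by
      generalize DD M = D at *
      have h7 : D + 1 ≤ D ^ 2 := by nlinarith
      calc (D + 1) * (D + 1) ≤ D ^ 2 * D ^ 2 := Nat.mul_le_mul h7 h7
        _ = D ^ 4 := by ring
    have h8 : (M : ℝ) ≤ 2 ^ (DD M ^ 4) := by
      have : M ≤ 2 ^ (DD M ^ 4) := h4.le.trans (Nat.pow_le_pow_right (by norm_num) (h5.trans h6))
      exact_mod_cast this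
    calc Real.log M ≤ Real.log (2 ^ (DD M ^ 4)) := Real.log_le_log hMpos h8
      _ = (DD M ^ 4 : ℕ) * Real.log 2 := by rw [Real.log_pow]
      _ ≤ (DD M ^ 4 : ℕ) * 1 := by
        have : Real.log 2 ≤ 1 := by
          have := Real.log_two_lt_d9
          linarith
        gcongr
      _ = _ := by push_cast; ring
  have hlog0 : 0 ≤ Real.log M := Real.log_natCast_nonneg M
  have hD1 : (1 : ℝ) ≤ DD M := by
    have : 1 ≤ DD M := by omega
    exact_mod_cast this
  calc Real.log M ^ ((1 / 2000 : ℝ) * M) ≤ ((DD M : ℝ) ^ 4) ^ ((1 / 2000 : ℝ) * M) :=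
        Real.rpow_le_rpow hlog0 hlog (by positivity)
    _ = (DD M : ℝ) ^ (4 * ((1 / 2000 : ℝ) * M)) := by
        rw [← Real.rpow_natCast, ← Real.rpow_mul (by positivity)]
        norm_num
    _ ≤ (DD M : ℝ) ^ (s : ℝ) := by
        refine Real.rpow_le_rpow_of_exponent_le hD1 ?_
        have : (M : ℝ) ≤ 402 * s := by exact_mod_cast hs1
        linarith
    _ = ((DD M ^ s : ℕ) : ℝ) := by rw [Real.rpow_natCast]; push_cast; rfl
    _ ≤ q := by exact_mod_cast hs2

/-- **Main result.** (1) The answer to Q1 is negative. (2) For every constant `c` and every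
polynomial `p`, for all sufficiently large `n`, every uncapacitated flow-based extension of the
semiorder polytope has more than `p(n) c ^ n` arcs. (3) There is `δ > 0` such that for all large `n`
every such extension has at least `(log n) ^ (δ n)` arcs. -/
theorem result :
    ¬ Q1 ∧
    (∀ (c : ℝ) (p : Polynomial ℝ), ∀ᶠ n : ℕ in atTop, ∀ q, HasFlowExt (PSO n) q →
      p.eval (n : ℝ) * c ^ n < q) ∧
    (∃ δ : ℝ, 0 < δ ∧ ∀ᶠ n : ℕ in atTop, ∀ q, HasFlowExt (PSO n) q →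
      Real.log n ^ (δ * n) ≤ q) := by
  have h2 : ∀ (c : ℝ) (p : Polynomial ℝ), ∀ᶠ n : ℕ in atTop, ∀ q, HasFlowExt (PSO n) q →
      p.eval (n : ℝ) * c ^ n < q := by
    intro c p
    obtain ⟨K, hK⟩ := poly_bound c p
    filter_upwards [hK, ev_pow K] with n h1 h2 q hq
    exact h1.trans_lt (h2 q hq)
  refine ⟨?_, h2, 1 / 2000, by norm_num, ev_log⟩
  rintro ⟨c, f, hf, p, hp⟩
  obtain ⟨n, h3, h4, h5⟩ := ((h2 c p).and (hp.and (eventually_ge_atTop 1))).exists
  exact absurd (h3 _ (hf n h5)) (not_lt.2 h4)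

end Pool.Agent.Results.MP_59d646_lc.SemiorderLowerBound
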